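import Mathlib

set_option autoImplicit false

namespace Pool.Agent.Results.MP_a6fba8_lc.UNNotModular

/-- A first-order signature: a type of function symbols, each with an arity. -/
structure Signature where
  /-- the function symbols -/
  Sym : Type
  /-- the arity of each function symbol -/
  arity : Sym → ℕ

/-- First-order terms over a signature and the countably many variables `var 0, var 1, …`. -/
inductive Term (F : Signature) : Type
  | var : ℕ → Term F
  | app : (f : F.Sym) → (Fin (F.arity f) → Term F) → Term F

/-- Applying a substitution `σ` (a map from variables to terms) to a term. -/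
def Term.subst {F : Signature} (σ : ℕ → Term F) : Term F → Term F
  | .var x => σ x
  | .app f ts => .app f (fun i => (ts i).subst σ)

/-- A variable occurs in a term. -/
inductive Term.Occurs {F : Signature} (x : ℕ) : Term F → Prop
  | var : Term.Occurs x (.var x)
  | app (f : F.Sym) (ts : Fin (F.arity f) → Term F) (i : Fin (F.arity f)) :
      Term.Occurs x (ts i) → Term.Occurs x (.app f ts)

/-- The number of occurrences of the variable `x` in a term. -/
def Term.count {F : Signature} (x : ℕ) : Term F → ℕ
  | .var y => if y = x then 1 else 0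
  | .app _ ts => ∑ i, (ts i).count x

/-- A conditional rule `u₁ ↓ v₁ ∧ … ∧ u_k ↓ v_k ⇒ l → r`: left-hand side `l`, right-hand side `r`
and the finite list `cond` of the pairs `(u_i, v_i)`. -/
structure Rule (F : Signature) where
  /-- the left-hand side -/
  lhs : Term F
  /-- the right-hand side -/
  rhs : Term F
  /-- the list of pairs `(u, v)`, each standing for the join condition `u ↓ v` -/
  cond : List (Term F × Term F)

/-- A join conditional term-rewriting system over the signature `F`: a set of conditional rules,
no left-hand side being a variable. -/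
structure JoinCTRS (F : Signature) where
  /-- the rules -/
  rules : Set (Rule F)
  /-- no left-hand side is a variable -/
  lhs_not_var : ∀ ρ ∈ rules, ∀ x : ℕ, ρ.lhs ≠ Term.var x

/-- Closure of a relation on terms under contexts: replace one subterm occurrence `s` by `t`,
where `B s t`. -/
inductive CtxClosure {F : Signature} (B : Term F → Term F → Prop) : Term F → Term F → Prop
  | root (s t : Term F) : B s t → CtxClosure B s t
  | arg (f : F.Sym) (ts : Fin (F.arity f) → Term F) (i : Fin (F.arity f)) (u : Term F) :
      CtxClosure B (ts i) u → CtxClosure B (.app f ts) (.app f (Function.update ts i u))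

/-- `u ↓ v` with respect to the one-step relation `r`: the terms `u` and `v` have a common
reduct. -/
def Joinable {F : Signature} (r : Term F → Term F → Prop) (u v : Term F) : Prop :=
  ∃ w, Relation.ReflTransGen r u w ∧ Relation.ReflTransGen r v w

/-- The relations `→_{R_n}`: `→_{R_0}` is empty, and `→_{R_{n+1}}` contracts (in any context) those
instances `lσ` to `rσ` for which all the conditions `uσ ↓ vσ` hold with respect to `→_{R_n}`. -/
def JoinCTRS.level {F : Signature} (R : JoinCTRS F) : ℕ → Term F → Term F → Prop
  | 0 => fun _ _ => False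
  | n + 1 => CtxClosure (fun s t => ∃ ρ ∈ R.rules, ∃ σ : ℕ → Term F,
      (∀ c ∈ ρ.cond, Joinable (R.level n) (c.1.subst σ) (c.2.subst σ)) ∧
        s = ρ.lhs.subst σ ∧ t = ρ.rhs.subst σ)

/-- The rewrite relation `→_R`, the union of the relations `→_{R_n}`. -/
def JoinCTRS.Step {F : Signature} (R : JoinCTRS F) (s t : Term F) : Prop :=
  ∃ n, R.level n s t

/-- `s →_R^* t`. -/
def JoinCTRS.Reduces {F : Signature} (R : JoinCTRS F) : Term F → Term F → Prop :=
  Relation.ReflTransGen R.Step

/-- Convertibility `s ↔_R^* t`. -/
def JoinCTRS.Conv {F : Signature} (R : JoinCTRS F) : Term F → Term F → Prop :=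
  Relation.EqvGen R.Step

/-- A term is a normal form if no rewrite step applies to it. -/
def JoinCTRS.NormalForm {F : Signature} (R : JoinCTRS F) (t : Term F) : Prop :=
  ¬ ∃ u, R.Step t u

/-- Unique normal forms (UN): convertible normal forms are identical. -/
def JoinCTRS.UN {F : Signature} (R : JoinCTRS F) : Prop :=
  ∀ s t : Term F, R.NormalForm s → R.NormalForm t → R.Conv s t → s = t

/-- Unique normal forms with respect to reduction (UN→): no term reduces to two distinct normal
forms. This is implied by UN. -/
def JoinCTRS.UNred {F : Signature} (R : JoinCTRS F) : Prop :=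
  ∀ u s t : Term F, R.NormalForm s → R.NormalForm t → R.Reduces u s → R.Reduces u t → s = t

/-- Confluence: any two reducts of a term have a common reduct. -/
def JoinCTRS.Confluent {F : Signature} (R : JoinCTRS F) : Prop :=
  ∀ u s t : Term F, R.Reduces u s → R.Reduces u t → ∃ w, R.Reduces s w ∧ R.Reduces t w

/-- Termination: there is no infinite reduction. -/
def JoinCTRS.Terminating {F : Signature} (R : JoinCTRS F) : Prop :=
  ¬ ∃ t : ℕ → Term F, ∀ n, R.Step (t n) (t (n + 1))

/-- Left-linearity: no variable occurs twice in the left-hand side of a rule. -/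
def JoinCTRS.LeftLinear {F : Signature} (R : JoinCTRS F) : Prop :=
  ∀ ρ ∈ R.rules, ∀ x : ℕ, ρ.lhs.count x ≤ 1

/-- No extra variables: all the variables of a rule occur in its left-hand side. -/
def JoinCTRS.NoExtraVars {F : Signature} (R : JoinCTRS F) : Prop :=
  ∀ ρ ∈ R.rules, ∀ x : ℕ,
    (ρ.rhs.Occurs x ∨ ∃ c ∈ ρ.cond, c.1.Occurs x ∨ c.2.Occurs x) → ρ.lhs.Occurs x

/-- The disjoint union of two signatures. -/
def Signature.sum (F G : Signature) : Signature where
  Sym := F.Sym ⊕ G.Sym
  arity := Sum.elim F.arity G.arity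

/-- A term over `F`, seen as a term over the disjoint union of `F` and `G`. -/
def Term.inl {F : Signature} (G : Signature) : Term F → Term (F.sum G)
  | .var x => .var x
  | .app f ts => .app (F := F.sum G) (Sum.inl f) (fun i => Term.inl G (ts i))

/-- A term over `G`, seen as a term over the disjoint union of `F` and `G`. -/
def Term.inr (F : Signature) {G : Signature} : Term G → Term (F.sum G)
  | .var x => .var x
  | .app g ts => .app (F := F.sum G) (Sum.inr g) (fun i => Term.inr F (ts i))

/-- A rule over `F`, seen as a rule over the disjoint union of `F` and `G`. -/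
def Rule.inl {F : Signature} (G : Signature) (ρ : Rule F) : Rule (F.sum G) where
  lhs := Term.inl G ρ.lhs
  rhs := Term.inl G ρ.rhs
  cond := ρ.cond.map (fun c => (Term.inl G c.1, Term.inl G c.2))

/-- A rule over `G`, seen as a rule over the disjoint union of `F` and `G`. -/
def Rule.inr (F : Signature) {G : Signature} (ρ : Rule G) : Rule (F.sum G) where
  lhs := Term.inr F ρ.lhs
  rhs := Term.inr F ρ.rhs
  cond := ρ.cond.map (fun c => (Term.inr F c.1, Term.inr F c.2))

/-- The disjoint union `R ∪ S` of two join conditional systems: all the rules of both, over the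
combined signature. -/
def JoinCTRS.union {F G : Signature} (R : JoinCTRS F) (S : JoinCTRS G) :
    JoinCTRS (F.sum G) where
  rules := Rule.inl G '' R.rules ∪ Rule.inr F '' S.rules
  lhs_not_var := by
    rintro ρ (⟨ρ', hρ', rfl⟩ | ⟨ρ', hρ', rfl⟩) x h
    · have := R.lhs_not_var ρ' hρ'
      rcases hl : ρ'.lhs with y | ⟨f, ts⟩
      · exact this y hl
      · simp only [Rule.inl, hl, Term.inl] at h
        cases h
    · have := S.lhs_not_var ρ' hρ'
      rcases hl : ρ'.lhs with y | ⟨f, ts⟩
      · exact this y hl
      · simp only [Rule.inr, hl, Term.inr] at h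
        cases h


/-! ### General facts -/

section General

variable {F : Signature}

theorem CtxClosure.mono {B B' : Term F → Term F → Prop} (h : ∀ s t, B s t → B' s t)
    {s t : Term F} (hs : CtxClosure B s t) : CtxClosure B' s t := by
  induction hs with
  | root s t hst => exact .root s t (h s t hst)
  | arg f ts i u _ ih => exact .arg f ts i u ih

theorem rtgMono {r r' : Term F → Term F → Prop} (h : ∀ s t, r s t → r' s t) {s t : Term F}
    (hs : Relation.ReflTransGen r s t) : Relation.ReflTransGen r' s t :=
  Relation.ReflTransGen.mono h s t hs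

theorem level_mono_succ (R : JoinCTRS F) (n : ℕ) :
    ∀ s t, R.level n s t → R.level (n + 1) s t := by
  induction n with
  | zero => intro s t h; exact h.elim
  | succ n ih =>
    intro s t h
    refine CtxClosure.mono ?_ h
    rintro s t ⟨ρ, hρ, σ, hc, rfl, rfl⟩
    refine ⟨ρ, hρ, σ, ?_, rfl, rfl⟩
    intro c hcm
    obtain ⟨w, h1, h2⟩ := hc c hcm
    exact ⟨w, rtgMono ih h1, rtgMono ih h2⟩

theorem level_mono (R : JoinCTRS F) {m n : ℕ} (hmn : m ≤ n) :
    ∀ s t, R.level m s t → R.level n s t := by
  induction hmn with
  | refl => exact fun _ _ h => h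
  | step _ ih => exact fun s t h => level_mono_succ R _ s t (ih s t h)

/-- A single finite reduction lives at a finite level. -/
theorem reduces_level (R : JoinCTRS F) {s t : Term F} (h : R.Reduces s t) :
    ∃ n, Relation.ReflTransGen (R.level n) s t := by
  induction h with
  | refl => exact ⟨0, .refl⟩
  | tail _ hst ih =>
    obtain ⟨n, hn⟩ := ih
    obtain ⟨m, hm⟩ := hst
    refine ⟨max n m, ?_⟩
    exact (rtgMono (level_mono R (le_max_left n m)) hn).tail
      (level_mono R (le_max_right n m) _ _ hm)

theorem joinable_level (R : JoinCTRS F) {s t : Term F} (h : Joinable R.Step s t) :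
    ∃ n, Joinable (R.level n) s t := by
  obtain ⟨w, h1, h2⟩ := h
  obtain ⟨n, hn⟩ := reduces_level R h1
  obtain ⟨m, hm⟩ := reduces_level R h2
  exact ⟨max n m, w, rtgMono (level_mono R (le_max_left n m)) hn,
    rtgMono (level_mono R (le_max_right n m)) hm⟩

/-- `→_R` is closed under contexts. -/
theorem step_arg (R : JoinCTRS F) (f : F.Sym) (ts : Fin (F.arity f) → Term F)
    (i : Fin (F.arity f)) (u : Term F) (h : R.Step (ts i) u) :
    R.Step (.app f ts) (.app f (Function.update ts i u)) := by
  obtain ⟨n, hn⟩ := h
  cases n with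
  | zero => exact hn.elim
  | succ n => exact ⟨n + 1, .arg f ts i u hn⟩

/-- A root step of `→_R`, all whose conditions hold with respect to `→_R`. -/
theorem step_root (R : JoinCTRS F) (ρ : Rule F) (hρ : ρ ∈ R.rules) (σ : ℕ → Term F)
    (hc : ∀ c ∈ ρ.cond, Joinable R.Step (c.1.subst σ) (c.2.subst σ)) :
    R.Step (ρ.lhs.subst σ) (ρ.rhs.subst σ) := by
  have key : ∀ l : List (Term F × Term F),
      (∀ c ∈ l, Joinable R.Step (c.1.subst σ) (c.2.subst σ)) →
      ∃ n, ∀ c ∈ l, Joinable (R.level n) (c.1.subst σ) (c.2.subst σ) := by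
    intro l
    induction l with
    | nil => intro _; exact ⟨0, by simp⟩
    | cons a l ih =>
      intro h
      obtain ⟨n, hn⟩ := ih (fun c hc => h c (List.mem_cons_of_mem _ hc))
      obtain ⟨m, hm⟩ := joinable_level R (h a List.mem_cons_self)
      refine ⟨max n m, ?_⟩
      intro c hc
      rcases List.mem_cons.1 hc with rfl | hc
      · obtain ⟨w, h1, h2⟩ := hm
        exact ⟨w, rtgMono (level_mono R (le_max_right n m)) h1,
          rtgMono (level_mono R (le_max_right n m)) h2⟩
      · obtain ⟨w, h1, h2⟩ := hn c hc
        exact ⟨w, rtgMono (level_mono R (le_max_left n m)) h1,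
          rtgMono (level_mono R (le_max_left n m)) h2⟩
  obtain ⟨n, hn⟩ := key ρ.cond hc
  exact ⟨n + 1, .root _ _ ⟨ρ, hρ, σ, hn, rfl, rfl⟩⟩

/-- An invariant of all steps of level `n` is an invariant of convertibility. -/
theorem conv_invariant (R : JoinCTRS F) {α : Type} (φ : Term F → α)
    (h : ∀ n s t, R.level n s t → φ s = φ t) {s t : Term F} (hst : R.Conv s t) : φ s = φ t := by
  induction hst with
  | rel s t h' => obtain ⟨n, hn⟩ := h'; exact h n s t hn
  | refl s => rfl
  | symm s t _ ih => exact ih.symm
  | trans s t u _ _ ih1 ih2 => exact ih1.trans ih2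

end General

/-! ### The first system

Constants `s`, `s'`, `c`, `d`, `t`, `a`, `b` and a unary symbol `h`, with the rules
`s → c`, `s → t`, `s' → d`, `s' → t`, `c → c`, `d → d`,
`x ↓ c ∧ x ↓ d ⇒ h(x) → a` and `x ↓ c ∧ x ↓ d ⇒ h(x) → b`. -/

/-- The function symbols of the first system. -/
inductive SymR : Type
  | s | s' | c | d | t | a | b | h

/-- The arities of the symbols of the first system: `h` is unary, the others are constants. -/
def arR : SymR → ℕ
  | .h => 1
  | _ => 0

/-- The signature of the first system. -/
abbrev sigR : Signature := ⟨SymR, arR⟩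

/-- The terms `s`, `s'`, `c`, `d`, `t`, `a`, `b` and `h(x)`. -/
def tS : Term sigR := .app (F := sigR) SymR.s Fin.elim0
def tS' : Term sigR := .app (F := sigR) SymR.s' Fin.elim0
def tC : Term sigR := .app (F := sigR) SymR.c Fin.elim0
def tD : Term sigR := .app (F := sigR) SymR.d Fin.elim0
def tT : Term sigR := .app (F := sigR) SymR.t Fin.elim0
def tA : Term sigR := .app (F := sigR) SymR.a Fin.elim0
def tB : Term sigR := .app (F := sigR) SymR.b Fin.elim0
def tH (u : Term sigR) : Term sigR := .app (F := sigR) SymR.h (fun _ => u)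

/-- The only argument position of `h`. -/
def i0 : Fin (sigR.arity SymR.h) := (0 : Fin 1)

/-- The list of rules of the first system. -/
def listR : List (Rule sigR) :=
  [⟨tS, tC, []⟩, ⟨tS, tT, []⟩, ⟨tS', tD, []⟩, ⟨tS', tT, []⟩, ⟨tC, tC, []⟩, ⟨tD, tD, []⟩,
   ⟨tH (.var 0), tA, [(.var 0, tC), (.var 0, tD)]⟩,
   ⟨tH (.var 0), tB, [(.var 0, tC), (.var 0, tD)]⟩]

/-- The first system. -/
def sysR : JoinCTRS sigR where
  rules := {ρ | ρ ∈ listR}
  lhs_not_var := by
    intro ρ hρ x h
    simp only [listR, List.mem_cons, List.not_mem_nil, or_false, Set.mem_ofPred_eq] at hρ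
    rcases hρ with rfl | rfl | rfl | rfl | rfl | rfl | rfl | rfl <;> cases h

theorem tS_subst (σ : ℕ → Term sigR) : tS.subst σ = tS := by
  simp only [tS, Term.subst]; congr 1; funext i; exact Fin.elim0 i
theorem tS'_subst (σ : ℕ → Term sigR) : tS'.subst σ = tS' := by
  simp only [tS', Term.subst]; congr 1; funext i; exact Fin.elim0 i
theorem tC_subst (σ : ℕ → Term sigR) : tC.subst σ = tC := by
  simp only [tC, Term.subst]; congr 1; funext i; exact Fin.elim0 i
theorem tD_subst (σ : ℕ → Term sigR) : tD.subst σ = tD := by
  simp only [tD, Term.subst]; congr 1; funext i; exact Fin.elim0 i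
theorem tT_subst (σ : ℕ → Term sigR) : tT.subst σ = tT := by
  simp only [tT, Term.subst]; congr 1; funext i; exact Fin.elim0 i
theorem tA_subst (σ : ℕ → Term sigR) : tA.subst σ = tA := by
  simp only [tA, Term.subst]; congr 1; funext i; exact Fin.elim0 i
theorem tB_subst (σ : ℕ → Term sigR) : tB.subst σ = tB := by
  simp only [tB, Term.subst]; congr 1; funext i; exact Fin.elim0 i
theorem tH_subst (u : Term sigR) (σ : ℕ → Term sigR) : (tH u).subst σ = tH (u.subst σ) := rfl

/-- `R`-steps at the root, spelled out. -/
theorem rootR {r : Term sigR → Term sigR → Prop} {x y : Term sigR}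
    (h : ∃ ρ ∈ sysR.rules, ∃ σ : ℕ → Term sigR,
      (∀ c ∈ ρ.cond, Joinable r (c.1.subst σ) (c.2.subst σ)) ∧
        x = ρ.lhs.subst σ ∧ y = ρ.rhs.subst σ) :
    (x = tS ∧ y = tC) ∨ (x = tS ∧ y = tT) ∨ (x = tS' ∧ y = tD) ∨ (x = tS' ∧ y = tT) ∨
    (x = tC ∧ y = tC) ∨ (x = tD ∧ y = tD) ∨
    (∃ z, x = tH z ∧ (y = tA ∨ y = tB) ∧ Joinable r z tC ∧ Joinable r z tD) := by
  obtain ⟨ρ, hρ, σ, hc, rfl, rfl⟩ := h
  simp only [sysR, listR, List.mem_cons, List.not_mem_nil, or_false, Set.mem_ofPred_eq] at hρ
  rcases hρ with rfl | rfl | rfl | rfl | rfl | rfl | rfl | rfl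
  · exact Or.inl ⟨tS_subst σ, tC_subst σ⟩
  · exact Or.inr (Or.inl ⟨tS_subst σ, tT_subst σ⟩)
  · exact Or.inr (Or.inr (Or.inl ⟨tS'_subst σ, tD_subst σ⟩))
  · exact Or.inr (Or.inr (Or.inr (Or.inl ⟨tS'_subst σ, tT_subst σ⟩)))
  · exact Or.inr (Or.inr (Or.inr (Or.inr (Or.inl ⟨tC_subst σ, tC_subst σ⟩))))
  · exact Or.inr (Or.inr (Or.inr (Or.inr (Or.inr (Or.inl ⟨tD_subst σ, tD_subst σ⟩)))))
  · refine Or.inr (Or.inr (Or.inr (Or.inr (Or.inr (Or.inr ⟨σ 0, rfl, Or.inl (tA_subst σ), ?_, ?_⟩)))))
    · have := hc (.var 0, tC) (by simp)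
      rwa [tC_subst] at this
    · have := hc (.var 0, tD) (by simp)
      rwa [tD_subst] at this
  · refine Or.inr (Or.inr (Or.inr (Or.inr (Or.inr (Or.inr ⟨σ 0, rfl, Or.inr (tB_subst σ), ?_, ?_⟩)))))
    · have := hc (.var 0, tC) (by simp)
      rwa [tC_subst] at this
    · have := hc (.var 0, tD) (by simp)
      rwa [tD_subst] at this

/-- A step of `R` at any level from or to a constant is a root step. -/
theorem level_c (n : ℕ) {x y : Term sigR} (h : sysR.level n x y) :
    (x = tC → y = tC) ∧ (x = tD → y = tD) ∧ (y = tC → x = tC ∨ x = tS) ∧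
    (y = tS → x = tS) ∧ (y = tD → x = tD ∨ x = tS') ∧ (y = tS' → x = tS') := by
  cases n with
  | zero => exact h.elim
  | succ n =>
    cases h with
    | root x y h =>
      rcases rootR h with ⟨rfl, rfl⟩ | ⟨rfl, rfl⟩ | ⟨rfl, rfl⟩ | ⟨rfl, rfl⟩ | ⟨rfl, rfl⟩ |
        ⟨rfl, rfl⟩ | ⟨z, rfl, rfl | rfl, -⟩
      all_goals
        refine ⟨?_, ?_, ?_, ?_, ?_, ?_⟩ <;> intro h <;>
        first
          | exact rfl
          | exact Or.inl rfl
          | exact Or.inr rfl
          | (exfalso; simp only [tS, tS', tC, tD, tT, tA, tB, tH] at h; injection h with h1 h2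
             cases h1)
    | arg f ts i u h =>
      refine ⟨?_, ?_, ?_, ?_, ?_, ?_⟩ <;> intro h <;> exfalso <;>
      · simp only [tS, tS', tC, tD, tT, tA, tB, tH] at h
        injection h with h1 h2
        subst h1
        exact Fin.elim0 i

theorem from_c (n : ℕ) {y : Term sigR} (h : Relation.ReflTransGen (sysR.level n) tC y) :
    y = tC := by
  induction h with
  | refl => rfl
  | tail _ h ih => subst ih; exact (level_c n h).1 rfl

theorem from_d (n : ℕ) {y : Term sigR} (h : Relation.ReflTransGen (sysR.level n) tD y) :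
    y = tD := by
  induction h with
  | refl => rfl
  | tail _ h ih => subst ih; exact (level_c n h).2.1 rfl

theorem to_c (n : ℕ) {x : Term sigR} (h : Relation.ReflTransGen (sysR.level n) x tC) :
    x = tC ∨ x = tS := by
  induction h using Relation.ReflTransGen.head_induction_on with
  | refl => exact Or.inl rfl
  | head h _ ih =>
    rcases ih with rfl | rfl
    · exact (level_c n h).2.2.1 rfl
    · exact Or.inr ((level_c n h).2.2.2.1 rfl)

theorem to_d (n : ℕ) {x : Term sigR} (h : Relation.ReflTransGen (sysR.level n) x tD) :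
    x = tD ∨ x = tS' := by
  induction h using Relation.ReflTransGen.head_induction_on with
  | refl => exact Or.inl rfl
  | head h _ ih =>
    rcases ih with rfl | rfl
    · exact (level_c n h).2.2.2.2.1 rfl
    · exact Or.inr ((level_c n h).2.2.2.2.2 rfl)

/-- The conditions of the last two rules never hold in `R` alone. -/
theorem never (n : ℕ) {z : Term sigR} (h1 : Joinable (sysR.level n) z tC)
    (h2 : Joinable (sysR.level n) z tD) : False := by
  obtain ⟨w, h1, h1'⟩ := h1
  obtain ⟨w', h2, h2'⟩ := h2
  obtain rfl := from_c n h1'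
  obtain rfl := from_d n h2'
  rcases to_c n h1 with rfl | rfl <;> rcases to_d n h2 with h | h <;>
  · simp only [tS, tS', tC, tD] at h
    injection h with h1 h2
    cases h1

/-- Replace `s`, `s'`, `c`, `d` by `t`. -/
def psi : Term sigR → Term sigR
  | .var x => .var x
  | .app SymR.s _ => tT
  | .app SymR.s' _ => tT
  | .app SymR.c _ => tT
  | .app SymR.d _ => tT
  | .app SymR.t _ => tT
  | .app SymR.a _ => tA
  | .app SymR.b _ => tB
  | .app SymR.h ts => tH (psi (ts i0))

theorem psi_level (n : ℕ) : ∀ x y, sysR.level n x y → psi x = psi y := by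
  intro x y h
  cases n with
  | zero => exact h.elim
  | succ n =>
    induction h with
    | root x y h =>
      rcases rootR h with ⟨rfl, rfl⟩ | ⟨rfl, rfl⟩ | ⟨rfl, rfl⟩ | ⟨rfl, rfl⟩ | ⟨rfl, rfl⟩ |
        ⟨rfl, rfl⟩ | ⟨z, rfl, -, h1, h2⟩
      · rfl
      · rfl
      · rfl
      · rfl
      · rfl
      · rfl
      · exact (never n h1 h2).elim
    | arg f ts i u h ih =>
      cases f
      case h =>
        have hi : i = i0 := Subsingleton.elim (α := Fin 1) i i0
        subst hi
        show tH (psi (ts i0)) = tH (psi (Function.update ts i0 u i0))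
        rw [ih, Function.update_self]
      all_goals exact Fin.elim0 i

theorem psi_nf (x : Term sigR) (h : sysR.NormalForm x) : psi x = x := by
  induction x with
  | var x => rfl
  | app f ts ih =>
    cases f
    case h =>
      have h0 : sysR.NormalForm (ts i0) := by
        rintro ⟨u, hu⟩
        exact h ⟨_, step_arg sysR SymR.h ts i0 u hu⟩
      have := ih i0 h0
      show tH (psi (ts i0)) = _
      rw [this]
      simp only [tH]
      congr 1
      funext i
      rw [show i = i0 from Subsingleton.elim (α := Fin 1) i i0]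
    case s =>
      exfalso
      apply h
      have e : (Term.app (F := sigR) SymR.s ts) = tS := by
        simp only [tS]; congr 1; funext i; exact Fin.elim0 i
      rw [e]
      have h1 := step_root sysR ⟨tS, tC, []⟩ (by simp [sysR, listR]) Term.var (by simp)
      rw [tS_subst] at h1
      exact ⟨_, h1⟩
    case s' =>
      exfalso
      apply h
      have e : (Term.app (F := sigR) SymR.s' ts) = tS' := by
        simp only [tS']; congr 1; funext i; exact Fin.elim0 i
      rw [e]
      have h1 := step_root sysR ⟨tS', tD, []⟩ (by simp [sysR, listR]) Term.var (by simp)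
      rw [tS'_subst] at h1
      exact ⟨_, h1⟩
    case c =>
      exfalso
      apply h
      have e : (Term.app (F := sigR) SymR.c ts) = tC := by
        simp only [tC]; congr 1; funext i; exact Fin.elim0 i
      rw [e]
      have h1 := step_root sysR ⟨tC, tC, []⟩ (by simp [sysR, listR]) Term.var (by simp)
      rw [tC_subst] at h1
      exact ⟨_, h1⟩
    case d =>
      exfalso
      apply h
      have e : (Term.app (F := sigR) SymR.d ts) = tD := by
        simp only [tD]; congr 1; funext i; exact Fin.elim0 i
      rw [e]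
      have h1 := step_root sysR ⟨tD, tD, []⟩ (by simp [sysR, listR]) Term.var (by simp)
      rw [tD_subst] at h1
      exact ⟨_, h1⟩
    case t =>
      simp only [psi, tT]; congr 1; funext i; exact Fin.elim0 i
    case a =>
      simp only [psi, tA]; congr 1; funext i; exact Fin.elim0 i
    case b =>
      simp only [psi, tB]; congr 1; funext i; exact Fin.elim0 i

theorem sysR_UN : sysR.UN := by
  intro x y hx hy h
  have := conv_invariant sysR psi psi_level h
  rwa [psi_nf x hx, psi_nf y hy] at this

/-! ### The second system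

One binary symbol `g`, with the rules `x ↓ y ⇒ g(x,y) → x` and `x ↓ y ⇒ g(x,y) → y`. -/

/-- The function symbols of the second system. -/
inductive SymS : Type
  | g

/-- The signature of the second system: one binary symbol. -/
abbrev sigS : Signature := ⟨SymS, fun _ => 2⟩

/-- The term `g(u,v)`. -/
def tG (u v : Term sigS) : Term sigS := .app (F := sigS) SymS.g ![u, v]

/-- The list of rules of the second system. -/
def listS : List (Rule sigS) :=
  [⟨tG (.var 0) (.var 1), .var 0, [(.var 0, .var 1)]⟩,
   ⟨tG (.var 0) (.var 1), .var 1, [(.var 0, .var 1)]⟩]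

/-- The second system. -/
def sysS : JoinCTRS sigS where
  rules := {ρ | ρ ∈ listS}
  lhs_not_var := by
    intro ρ hρ x h
    simp only [listS, List.mem_cons, List.not_mem_nil, or_false, Set.mem_ofPred_eq] at hρ
    rcases hρ with rfl | rfl <;> cases h

/-- The two argument positions of `g`. -/
def j0 : Fin (sigS.arity SymS.g) := (0 : Fin 2)
def j1 : Fin (sigS.arity SymS.g) := (1 : Fin 2)

theorem app_eq_tG (f : sigS.Sym) (ts : Fin (sigS.arity f) → Term sigS) :
    Term.app f ts = tG (ts j0) (ts j1) := by
  cases f
  simp only [tG]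
  congr 1
  funext i
  have : ∀ i : Fin 2, ts i = ![ts j0, ts j1] i := by
    intro i
    fin_cases i <;> rfl
  exact this i

theorem update_j0 (ts : Fin (sigS.arity SymS.g) → Term sigS) (u : Term sigS) :
    Term.app (F := sigS) SymS.g (Function.update ts j0 u) = tG u (ts j1) := by
  rw [app_eq_tG]
  congr 1

theorem update_j1 (ts : Fin (sigS.arity SymS.g) → Term sigS) (u : Term sigS) :
    Term.app (F := sigS) SymS.g (Function.update ts j1 u) = tG (ts j0) u := by
  rw [app_eq_tG]
  congr 1

theorem j_cases (i : Fin (sigS.arity SymS.g)) : i = j0 ∨ i = j1 := by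
  have : ∀ i : Fin 2, i = 0 ∨ i = 1 := by decide
  exact this i

theorem tG_subst (u v : Term sigS) (σ : ℕ → Term sigS) :
    (tG u v).subst σ = tG (u.subst σ) (v.subst σ) := by
  simp only [tG, Term.subst]
  congr 1
  funext i
  have : ∀ i : Fin 2, (![u, v] i).subst σ = ![u.subst σ, v.subst σ] i := by
    intro i
    fin_cases i <;> rfl
  exact this i

/-- `S`-steps at the root, spelled out. -/
theorem rootS {r : Term sigS → Term sigS → Prop} {x y : Term sigS}
    (h : ∃ ρ ∈ sysS.rules, ∃ σ : ℕ → Term sigS,
      (∀ c ∈ ρ.cond, Joinable r (c.1.subst σ) (c.2.subst σ)) ∧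
        x = ρ.lhs.subst σ ∧ y = ρ.rhs.subst σ) :
    ∃ u v, x = tG u v ∧ (y = u ∨ y = v) ∧ Joinable r u v := by
  obtain ⟨ρ, hρ, σ, hc, rfl, rfl⟩ := h
  simp only [sysS, listS, List.mem_cons, List.not_mem_nil, or_false, Set.mem_ofPred_eq] at hρ
  rcases hρ with rfl | rfl
  · exact ⟨σ 0, σ 1, tG_subst _ _ σ, Or.inl rfl, hc (.var 0, .var 1) (by simp)⟩
  · exact ⟨σ 0, σ 1, tG_subst _ _ σ, Or.inr rfl, hc (.var 0, .var 1) (by simp)⟩

open Classical in
/-- The normal form of a term in the second system. -/
noncomputable def nf : Term sigS → Term sigS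
  | .var x => .var x
  | .app SymS.g ts => if nf (ts j0) = nf (ts j1) then nf (ts j0) else tG (nf (ts j0)) (nf (ts j1))

open Classical in
theorem nf_tG (u v : Term sigS) : nf (tG u v) = if nf u = nf v then nf u else tG (nf u) (nf v) :=
  rfl

theorem nf_rtg {r : Term sigS → Term sigS → Prop} (h : ∀ x y, r x y → nf x = nf y)
    {x y : Term sigS} (hxy : Relation.ReflTransGen r x y) : nf x = nf y := by
  induction hxy with
  | refl => rfl
  | tail _ h' ih => exact ih.trans (h _ _ h')

theorem nf_level (n : ℕ) : ∀ x y, sysS.level n x y → nf x = nf y := by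
  induction n with
  | zero => intro x y h; exact h.elim
  | succ n IH =>
    intro x y h
    induction h with
    | root x y h =>
      obtain ⟨u, v, rfl, hy, w, h1, h2⟩ := rootS h
      have e : nf u = nf v := (nf_rtg IH h1).trans (nf_rtg IH h2).symm
      rw [nf_tG, if_pos e]
      rcases hy with rfl | rfl
      · rfl
      · exact e
    | arg f ts i u h ih =>
      cases f
      rcases j_cases i with rfl | rfl
      · rw [update_j0, app_eq_tG SymS.g ts, nf_tG, nf_tG, ih]
      · rw [update_j1, app_eq_tG SymS.g ts, nf_tG, nf_tG, ih]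

theorem step_left {u u' v : Term sigS} (h : sysS.Step u u') : sysS.Step (tG u v) (tG u' v) := by
  have h1 := step_arg sysS SymS.g ![u, v] j0 u' h
  rw [update_j0] at h1
  exact h1

theorem step_right {u v v' : Term sigS} (h : sysS.Step v v') : sysS.Step (tG u v) (tG u v') := by
  have h1 := step_arg sysS SymS.g ![u, v] j1 v' h
  rw [update_j1] at h1
  exact h1

theorem reduces_tG {u u' v v' : Term sigS} (h : sysS.Reduces u u') (h' : sysS.Reduces v v') :
    sysS.Reduces (tG u v) (tG u' v') := by
  have h1 : sysS.Reduces (tG u v) (tG u' v) := by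
    induction h with
    | refl => exact .refl
    | tail _ h ih => exact ih.tail (step_left h)
  have h2 : sysS.Reduces (tG u' v) (tG u' v') := by
    induction h' with
    | refl => exact .refl
    | tail _ h ih => exact ih.tail (step_right h)
  exact h1.trans h2

theorem reduces_nf (x : Term sigS) : sysS.Reduces x (nf x) := by
  induction x with
  | var x => exact .refl
  | app f ts ih =>
    rw [app_eq_tG f ts, nf_tG]
    have h := reduces_tG (ih j0) (ih j1)
    split_ifs with e
    · refine h.tail ?_
      rw [← e]
      have h1 := step_root sysS ⟨tG (.var 0) (.var 1), .var 0, [(.var 0, .var 1)]⟩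
        (by simp [sysS, listS]) (fun _ => nf (ts j0)) (by
          intro c hc
          simp only [List.mem_singleton] at hc
          subst hc
          exact ⟨_, .refl, .refl⟩)
      rw [tG_subst] at h1
      exact h1
    · exact h

theorem sysS_confluent : sysS.Confluent := by
  intro u s t hs ht
  refine ⟨nf u, ?_, ?_⟩
  · rw [nf_rtg (fun x y h => h.elim fun n hn => nf_level n x y hn) hs]
    exact reduces_nf s
  · rw [nf_rtg (fun x y h => h.elim fun n hn => nf_level n x y hn) ht]
    exact reduces_nf t

theorem sysS_UN : sysS.UN := by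
  intro s t hs ht h
  have key : ∀ x, sysS.NormalForm x → nf x = x := by
    intro x hx
    rcases Relation.ReflTransGen.cases_head (reduces_nf x) with h | ⟨y, hy, -⟩
    · exact h.symm
    · exact (hx ⟨y, hy⟩).elim
  have := conv_invariant sysS nf nf_level h
  rwa [key s hs, key t ht] at this

/-- The size of a term. -/
def size : Term sigS → ℕ
  | .var _ => 1
  | .app SymS.g ts => size (ts j0) + size (ts j1) + 1

theorem size_tG (u v : Term sigS) : size (tG u v) = size u + size v + 1 := rfl

theorem size_pos (u : Term sigS) : 0 < size u := by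
  cases u with
  | var x => exact Nat.one_pos
  | app f ts => cases f; exact Nat.succ_pos _

theorem size_level (n : ℕ) : ∀ x y, sysS.level n x y → size y < size x := by
  intro x y h
  cases n with
  | zero => exact h.elim
  | succ n =>
    induction h with
    | root x y h =>
      obtain ⟨u, v, rfl, rfl | rfl, -⟩ := rootS h
      · rw [size_tG]; omega
      · rw [size_tG]; omega
    | arg f ts i u h ih =>
      cases f
      rcases j_cases i with rfl | rfl
      · rw [update_j0, app_eq_tG SymS.g ts, size_tG, size_tG]
        omega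
      · rw [update_j1, app_eq_tG SymS.g ts, size_tG, size_tG]
        omega

theorem sysS_terminating : sysS.Terminating := by
  rintro ⟨t, ht⟩
  have h : ∀ n, size (t (n + 1)) < size (t n) := fun n => (ht n).elim fun m hm => size_level m _ _ hm
  have h2 : ∀ n, size (t n) + n ≤ size (t 0) := by
    intro n
    induction n with
    | zero => exact le_rfl
    | succ n ih => have := h n; omega
  have := h2 (size (t 0))
  have := size_pos (t (size (t 0)))
  omega

/-! ### The disjoint union -/

section Union

variable {F G : Signature}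

theorem inl_subst (σ : ℕ → Term F) (t : Term F) :
    (Term.inl G t).subst (fun x => Term.inl G (σ x)) = Term.inl G (t.subst σ) := by
  induction t with
  | var x => rfl
  | app f ts ih =>
    simp only [Term.inl, Term.subst]
    congr 1
    funext i
    exact ih i

theorem inl_level (R : JoinCTRS F) (S : JoinCTRS G) (n : ℕ) :
    ∀ s t, R.level n s t → (R.union S).level n (Term.inl G s) (Term.inl G t) := by
  induction n with
  | zero => intro s t h; exact h.elim
  | succ n IH =>
    intro s t h
    have IH' : ∀ {s t}, Relation.ReflTransGen (R.level n) s t →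
        Relation.ReflTransGen ((R.union S).level n) (Term.inl G s) (Term.inl G t) := by
      intro s t h
      induction h with
      | refl => exact .refl
      | tail _ h ih => exact ih.tail (IH _ _ h)
    induction h with
    | root s t h =>
      obtain ⟨ρ, hρ, σ, hc, rfl, rfl⟩ := h
      refine .root _ _ ⟨Rule.inl G ρ, Or.inl ⟨ρ, hρ, rfl⟩, fun x => Term.inl G (σ x), ?_,
        (inl_subst σ _).symm, (inl_subst σ _).symm⟩
      intro c hcm
      simp only [Rule.inl, List.mem_map] at hcm
      obtain ⟨c', hc', rfl⟩ := hcm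
      obtain ⟨w, h1, h2⟩ := hc c' hc'
      refine ⟨Term.inl G w, ?_, ?_⟩
      · simp only [inl_subst]; exact IH' h1
      · simp only [inl_subst]; exact IH' h2
    | arg f ts i u h ih =>
      have h1 := CtxClosure.arg (F := F.sum G) (Sum.inl f) (fun j => Term.inl G (ts j)) i
        (Term.inl G u) ih
      have e : Function.update (fun j => Term.inl G (ts j)) i (Term.inl G u) =
          fun j => Term.inl G (Function.update ts i u j) := by
        funext j
        by_cases hj : j = i
        · subst hj; simp
        · simp [Function.update_of_ne hj]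
      have e2 : Term.app (F := F.sum G) (Sum.inl f)
          (Function.update (fun j => Term.inl G (ts j)) i (Term.inl G u)) =
          Term.inl G (.app f (Function.update ts i u)) :=
        congrArg (Term.app (F := F.sum G) (Sum.inl f)) e
      exact Eq.mp (congrArg (fun z => CtxClosure _ _ z) e2) h1

theorem inl_step (R : JoinCTRS F) (S : JoinCTRS G) {s t : Term F} (h : R.Step s t) :
    (R.union S).Step (Term.inl G s) (Term.inl G t) := by
  obtain ⟨n, hn⟩ := h
  exact ⟨n, inl_level R S n s t hn⟩

end Union

/-- The disjoint union of the two systems. -/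
def sysU : JoinCTRS (sigR.sum sigS) := sysR.union sysS

theorem stepR (l r : Term sigR) (h : (⟨l, r, []⟩ : Rule sigR) ∈ listR)
    (hl : ∀ σ, l.subst σ = l) (hr : ∀ σ, r.subst σ = r) : sysR.Step l r := by
  have h1 := step_root sysR ⟨l, r, []⟩ h Term.var (by simp)
  simp only [hl, hr] at h1
  exact h1

/-- The term `g(s,s')` of the union. -/
def uG : Term (sigR.sum sigS) :=
  .app (F := sigR.sum sigS) (Sum.inr SymS.g) ![Term.inl sigS tS, Term.inl sigS tS']

/-- The term `h(g(s,s'))` of the union. -/
def uH : Term (sigR.sum sigS) :=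
  .app (F := sigR.sum sigS) (Sum.inl SymR.h) (fun _ => uG)

theorem joinSS' : Joinable sysU.Step (Term.inl sigS tS) (Term.inl sigS tS') :=
  ⟨Term.inl sigS tT,
    .single (inl_step sysR sysS (stepR tS tT (by simp [listR]) tS_subst tT_subst)),
    .single (inl_step sysR sysS (stepR tS' tT (by simp [listR]) tS'_subst tT_subst))⟩

/-- The substitution `0 ↦ s`, `n ↦ s'` for `n ≥ 1`. -/
def sub01 : ℕ → Term (sigR.sum sigS)
  | 0 => Term.inl sigS tS
  | _ + 1 => Term.inl sigS tS'

theorem lhsG_subst : (Term.inr sigR (tG (.var 0) (.var 1))).subst sub01 = uG := by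
  simp only [tG, Term.inr, Term.subst, uG]
  congr 1
  funext i
  have : ∀ i : Fin 2, (Term.inr sigR ((![Term.var 0, Term.var 1] : Fin 2 → Term sigS) i)).subst sub01
      = (![Term.inl sigS tS, Term.inl sigS tS'] : Fin 2 → Term (sigR.sum sigS)) i := by
    intro i
    fin_cases i <;> rfl
  exact this i

theorem uG_left : sysU.Step uG (Term.inl sigS tS) := by
  have h1 := step_root sysU
    (Rule.inr sigR ⟨tG (.var 0) (.var 1), .var 0, [(.var 0, .var 1)]⟩)
    (Or.inr ⟨_, by simp [sysS, listS], rfl⟩) sub01 (by
      intro c hc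
      simp only [Rule.inr, List.map_cons, List.map_nil, List.mem_singleton] at hc
      subst hc
      exact joinSS')
  simp only [Rule.inr, lhsG_subst] at h1
  exact h1

theorem uG_right : sysU.Step uG (Term.inl sigS tS') := by
  have h1 := step_root sysU
    (Rule.inr sigR ⟨tG (.var 0) (.var 1), .var 1, [(.var 0, .var 1)]⟩)
    (Or.inr ⟨_, by simp [sysS, listS], rfl⟩) sub01 (by
      intro c hc
      simp only [Rule.inr, List.map_cons, List.map_nil, List.mem_singleton] at hc
      subst hc
      exact joinSS')
  simp only [Rule.inr, lhsG_subst] at h1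
  exact h1

theorem inl_const_subst (f : SymR) (hf : arR f = 0) (ts ts' : Fin (sigR.arity f) → Term sigR)
    (σ : ℕ → Term (sigR.sum sigS)) :
    (Term.inl sigS (.app (F := sigR) f ts)).subst σ = Term.inl sigS (.app (F := sigR) f ts') := by
  simp only [Term.inl, Term.subst]
  congr 1
  funext i
  exact Fin.elim0 (hf ▸ (i : Fin (arR f)) : Fin 0)

theorem uG_join_c : Joinable sysU.Step uG (Term.inl sigS tC) :=
  ⟨Term.inl sigS tC, (Relation.ReflTransGen.single uG_left).tail
    (inl_step sysR sysS (stepR tS tC (by simp [listR]) tS_subst tC_subst)), .refl⟩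

theorem uG_join_d : Joinable sysU.Step uG (Term.inl sigS tD) :=
  ⟨Term.inl sigS tD, (Relation.ReflTransGen.single uG_right).tail
    (inl_step sysR sysS (stepR tS' tD (by simp [listR]) tS'_subst tD_subst)), .refl⟩

theorem condU (c : Term (sigR.sum sigS) × Term (sigR.sum sigS))
    (hc : c ∈ (Rule.inl sigS ⟨tH (.var 0), tA, [(.var 0, tC), (.var 0, tD)]⟩).cond) :
    Joinable sysU.Step (c.1.subst (fun _ => uG)) (c.2.subst (fun _ => uG)) := by
  simp only [Rule.inl, List.map_cons, List.map_nil, List.mem_cons, List.not_mem_nil,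
    or_false] at hc
  rcases hc with rfl | rfl
  · have h1 : (Term.inl sigS tC).subst (fun _ => uG) = Term.inl sigS tC :=
      inl_const_subst SymR.c rfl _ _ _
    simp only [h1]
    exact uG_join_c
  · have h1 : (Term.inl sigS tD).subst (fun _ => uG) = Term.inl sigS tD :=
      inl_const_subst SymR.d rfl _ _ _
    simp only [h1]
    exact uG_join_d

theorem uH_a : sysU.Step uH (Term.inl sigS tA) := by
  have h1 := step_root sysU
    (Rule.inl sigS ⟨tH (.var 0), tA, [(.var 0, tC), (.var 0, tD)]⟩)
    (Or.inl ⟨_, by simp [sysR, listR], rfl⟩) (fun _ => uG) condU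
  have h2 : (Term.inl sigS tA).subst (fun _ => uG) = Term.inl sigS tA :=
    inl_const_subst SymR.a rfl _ _ _
  simp only [Rule.inl, h2] at h1
  exact h1

theorem uH_b : sysU.Step uH (Term.inl sigS tB) := by
  have h1 := step_root sysU
    (Rule.inl sigS ⟨tH (.var 0), tB, [(.var 0, tC), (.var 0, tD)]⟩)
    (Or.inl ⟨_, by simp [sysR, listR], rfl⟩) (fun _ => uG) condU
  have h2 : (Term.inl sigS tB).subst (fun _ => uG) = Term.inl sigS tB :=
    inl_const_subst SymR.b rfl _ _ _
  simp only [Rule.inl, h2] at h1
  exact h1

/-- The constants `a` and `b` are normal forms of the union. -/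
theorem const_nf (f : SymR) (hf : f = SymR.a ∨ f = SymR.b)
    (ts : Fin (sigR.arity f) → Term sigR) :
    sysU.NormalForm (Term.inl sigS (.app (F := sigR) f ts)) := by
  rintro ⟨y, n, h⟩
  cases n with
  | zero => exact h.elim
  | succ n =>
    generalize hx : Term.inl sigS (.app (F := sigR) f ts) = x at h
    cases h with
    | root x y h =>
      obtain ⟨ρ, hρ, σ, -, rfl, -⟩ := h
      rcases hρ with ⟨ρ', hρ', rfl⟩ | ⟨ρ', hρ', rfl⟩
      · simp only [sysR, listR, List.mem_cons, List.not_mem_nil, or_false,
          Set.mem_ofPred_eq] at hρ'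
        rcases hρ' with rfl | rfl | rfl | rfl | rfl | rfl | rfl | rfl <;>
        · simp only [Rule.inl, Term.inl, Term.subst, tS, tS', tC, tD, tH] at hx
          injection hx with h1 h2
          injection h1 with h1
          subst h1
          rcases hf with hf | hf <;> cases hf
      · simp only [sysS, listS, List.mem_cons, List.not_mem_nil, or_false,
          Set.mem_ofPred_eq] at hρ'
        rcases hρ' with rfl | rfl <;>
        · simp only [Rule.inr, Term.inr, Term.inl, Term.subst, tG] at hx
          injection hx with h1 h2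
          cases h1
    | arg g us i u h =>
      simp only [Term.inl] at hx
      injection hx with h1 h2
      subst h1
      rcases hf with rfl | rfl <;> exact Fin.elim0 i

theorem sysU_not_UNred : ¬ sysU.UNred := by
  intro h
  have h1 := h uH _ _ (const_nf SymR.a (Or.inl rfl) _) (const_nf SymR.b (Or.inr rfl) _)
    (.single uH_a) (.single uH_b)
  simp only [Term.inl] at h1
  injection h1 with h1 _
  injection h1 with h1
  cases h1

theorem UNred_of_UN {F : Signature} (R : JoinCTRS F) (h : R.UN) : R.UNred := by
  intro u s t hs ht h1 h2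
  refine h s t hs ht ?_
  have key : ∀ {x y}, R.Reduces x y → R.Conv x y := by
    intro x y h
    induction h with
    | refl => exact .refl _
    | tail _ h ih => exact .trans _ _ _ ih (.rel _ _ h)
  exact .trans _ _ _ (.symm _ _ (key h1)) (key h2)

theorem sysR_leftLinear : sysR.LeftLinear := by
  intro ρ hρ x
  simp only [sysR, listR, List.mem_cons, List.not_mem_nil, or_false, Set.mem_ofPred_eq] at hρ
  have hk : ∀ (f : SymR) (ts : Fin (sigR.arity f) → Term sigR), arR f = 0 →
      (Term.app (F := sigR) f ts).count x ≤ 1 := by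
    intro f ts hf
    simp only [Term.count]
    have : ∀ i : Fin (sigR.arity f), False := fun i => Fin.elim0 (hf ▸ (i : Fin (arR f)) : Fin 0)
    haveI : IsEmpty (Fin (sigR.arity f)) := ⟨this⟩
    simp
  have hH : (tH (.var 0)).count x ≤ 1 := by
    have e : (tH (.var 0)).count x = ∑ _i : Fin 1, (Term.var (F := sigR) 0).count x := rfl
    rw [e, Finset.sum_const, Finset.card_univ, Fintype.card_fin, one_smul]
    simp only [Term.count]
    split_ifs <;> omega
  rcases hρ with rfl | rfl | rfl | rfl | rfl | rfl | rfl | rfl
  · exact hk _ _ rfl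
  · exact hk _ _ rfl
  · exact hk _ _ rfl
  · exact hk _ _ rfl
  · exact hk _ _ rfl
  · exact hk _ _ rfl
  · exact hH
  · exact hH

theorem sysS_leftLinear : sysS.LeftLinear := by
  intro ρ hρ x
  simp only [sysS, listS, List.mem_cons, List.not_mem_nil, or_false, Set.mem_ofPred_eq] at hρ
  have hG : (tG (.var 0) (.var 1)).count x ≤ 1 := by
    have e : (tG (.var 0) (.var 1)).count x =
        ∑ i : Fin 2, ((![Term.var 0, Term.var 1] : Fin 2 → Term sigS) i).count x := rfl
    rw [e, Fin.sum_univ_two]
    simp only [Matrix.cons_val_zero, Matrix.cons_val_one, Term.count]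
    split_ifs <;> omega
  rcases hρ with rfl | rfl
  · exact hG
  · exact hG

theorem const_not_occurs (x : ℕ) (f : SymR) (hf : arR f = 0)
    (ts : Fin (sigR.arity f) → Term sigR) :
    ¬ (Term.app (F := sigR) f ts).Occurs x := by
  intro h
  cases h with
  | app f ts i h => exact Fin.elim0 (hf ▸ (i : Fin (arR f)) : Fin 0)

theorem sysR_noExtraVars : sysR.NoExtraVars := by
  intro ρ hρ x
  simp only [sysR, listR, List.mem_cons, List.not_mem_nil, or_false, Set.mem_ofPred_eq] at hρ
  have hx : (Term.var (F := sigR) 0).Occurs x → (tH (.var 0)).Occurs x := by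
    intro h
    exact Term.Occurs.app (F := sigR) SymR.h (fun _ => .var 0) i0 h
  rcases hρ with rfl | rfl | rfl | rfl | rfl | rfl | rfl | rfl
  · rintro (h | ⟨c, hc, -⟩)
    · exact (const_not_occurs x _ rfl _ h).elim
    · simp at hc
  · rintro (h | ⟨c, hc, -⟩)
    · exact (const_not_occurs x _ rfl _ h).elim
    · simp at hc
  · rintro (h | ⟨c, hc, -⟩)
    · exact (const_not_occurs x _ rfl _ h).elim
    · simp at hc
  · rintro (h | ⟨c, hc, -⟩)
    · exact (const_not_occurs x _ rfl _ h).elim
    · simp at hc
  · rintro (h | ⟨c, hc, -⟩)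
    · exact (const_not_occurs x _ rfl _ h).elim
    · simp at hc
  · rintro (h | ⟨c, hc, -⟩)
    · exact (const_not_occurs x _ rfl _ h).elim
    · simp at hc
  · rintro (h | ⟨c, hc, h⟩)
    · exact (const_not_occurs x _ rfl _ h).elim
    · simp only [List.mem_cons, List.not_mem_nil, or_false] at hc
      rcases hc with rfl | rfl <;> rcases h with h | h
      · exact hx h
      · exact (const_not_occurs x _ rfl _ h).elim
      · exact hx h
      · exact (const_not_occurs x _ rfl _ h).elim
  · rintro (h | ⟨c, hc, h⟩)
    · exact (const_not_occurs x _ rfl _ h).elim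
    · simp only [List.mem_cons, List.not_mem_nil, or_false] at hc
      rcases hc with rfl | rfl <;> rcases h with h | h
      · exact hx h
      · exact (const_not_occurs x _ rfl _ h).elim
      · exact hx h
      · exact (const_not_occurs x _ rfl _ h).elim

theorem sysS_noExtraVars : sysS.NoExtraVars := by
  intro ρ hρ x
  simp only [sysS, listS, List.mem_cons, List.not_mem_nil, or_false, Set.mem_ofPred_eq] at hρ
  have h0 : (Term.var (F := sigS) 0).Occurs x → (tG (.var 0) (.var 1)).Occurs x := by
    intro h
    exact Term.Occurs.app (F := sigS) SymS.g _ j0 h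
  have h1 : (Term.var (F := sigS) 1).Occurs x → (tG (.var 0) (.var 1)).Occurs x := by
    intro h
    exact Term.Occurs.app (F := sigS) SymS.g _ j1 h
  rcases hρ with rfl | rfl
  · rintro (h | ⟨c, hc, h⟩)
    · exact h0 h
    · simp only [List.mem_singleton] at hc
      subst hc
      exact h.elim h0 h1
  · rintro (h | ⟨c, hc, h⟩)
    · exact h1 h
    · simp only [List.mem_singleton] at hc
      subst hc
      exact h.elim h0 h1

theorem finite_symR : Finite SymR := by
  refine Finite.intro (n := 8) (Equiv.ofBijective
    (fun f => match f with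
      | .s => (0 : Fin 8) | .s' => 1 | .c => 2 | .d => 3 | .t => 4 | .a => 5 | .b => 6 | .h => 7)
    ⟨?_, ?_⟩)
  · intro f g h
    cases f <;> cases g <;> first | rfl | (exfalso; revert h; decide)
  · intro i
    fin_cases i
    exacts [⟨.s, rfl⟩, ⟨.s', rfl⟩, ⟨.c, rfl⟩, ⟨.d, rfl⟩, ⟨.t, rfl⟩, ⟨.a, rfl⟩, ⟨.b, rfl⟩, ⟨.h, rfl⟩]

theorem finite_symS : Finite SymS := by
  haveI : Subsingleton SymS := ⟨fun a b => by cases a; cases b; rfl⟩
  infer_instance

/-- **UN is not a modular property of join conditional term-rewriting systems.** There are join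
CTRSs `R` and `S` over disjoint signatures, both with unique normal forms, whose disjoint union
does not have unique normal forms; the union does not even have unique normal forms with respect
to reduction. Both systems are finite, left-linear and without extra variables, and `S` is moreover
confluent and terminating. -/
theorem result :
    ∃ (F G : Signature) (R : JoinCTRS F) (S : JoinCTRS G),
      R.UN ∧ S.UN ∧ ¬ (R.union S).UN ∧ ¬ (R.union S).UNred ∧
      Finite F.Sym ∧ Finite G.Sym ∧ R.rules.Finite ∧ S.rules.Finite ∧
      R.LeftLinear ∧ S.LeftLinear ∧ R.NoExtraVars ∧ S.NoExtraVars ∧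
      S.Confluent ∧ S.Terminating :=
  ⟨sigR, sigS, sysR, sysS, sysR_UN, sysS_UN, fun h => sysU_not_UNred (UNred_of_UN _ h),
    sysU_not_UNred, finite_symR, finite_symS, List.finite_toSet listR, List.finite_toSet listS,
    sysR_leftLinear, sysS_leftLinear, sysR_noExtraVars, sysS_noExtraVars, sysS_confluent,
    sysS_terminating⟩

end Pool.Agent.Results.MP_a6fba8_lc.UNNotModular
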